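import Mathlib
import Pool.Agent.Run7.h441.FQ.Main

/-!
# `∑_{k<p} C(-1/4,k)^2 / (-8)^k` modulo `p^2` (question 2)

Proof, `p = 4n+1`, `c_k = C(2k,k)/4^k`: modulo `p^2` the sum is `∑ C(n,k) C(-n-1/2,k) (-1/8)^k`, which is
equal to `2^{-n} B`, `B = ∑_{k ≤ 2n} 2^k c_k c_{2n-k}` (both satisfy the same recurrence of order two in
`n`). Since `c_k ≡ c_{2n-k}` modulo `p`, one has `2 c_k c_{2n-k} ≡ c_k^2 + c_{2n-k}^2` modulo `p^2`, so
`2 B ≡ ∑ 2^k c_k^2 + 4^n ∑ 2^{-k} c_k^2`, and these are, modulo `p^2`, the values of the Legendre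
polynomial `P_{2n}` at `-3` and at `0`: `P_{2n}(-3) = P_{2n}(3)` is the central Delannoy number, which is
`c_n` modulo `p^2`, and `P_{2n}(0) = (-1)^n c_n`. With question 1 (`c_n ≡ (-1)^n (2x - p/(2x))`) the sum
is `(2x - p/(2x)) (2^n + (-1)^n 2^{-n}) / 2`, and the quartic character of `2` gives the rest.
-/

set_option autoImplicit false

namespace Pool.Agent.Results.MP_fdcced_nt.QuestionTwo

open Finset

/-- the binomial coefficient `a (a-1) ⋯ (a-k+1) / k!` for rational `a` -/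
def binom (a : ℚ) (k : ℕ) : ℚ := (∏ i ∈ range k, (a - i)) / k.factorial

/-- `x ≡ y (mod p^2)` for rational numbers `x`, `y` with denominators prime to `p`:
`(x - y) / p^2` has denominator prime to `p`. -/
def CongrSq (p : ℕ) (x y : ℚ) : Prop :=
  ¬ p ∣ x.den ∧ ¬ p ∣ y.den ∧ ¬ p ∣ ((x - y) / (p : ℚ) ^ 2).den

open Pool.Agent.R439.PL

theorem congr_of_EQ {p : ℕ} [Fact p.Prime] {x y : ℚ} (h : EQ p 2 x y) : CongrSq p x y := by
  refine ⟨?_, ?_, den_of_I h.2.2⟩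
  · have := den_of_I (p := p) (k := 0) (I_zero_iff.2 h.1)
    rwa [pow_zero, div_one] at this
  · have := den_of_I (p := p) (k := 0) (I_zero_iff.2 h.2.1)
    rwa [pow_zero, div_one] at this

/-- **Question 2 of MP_fdcced_nt, both cases, for all primes `p ≡ 1 (mod 4)`.** -/
theorem result (p : ℕ) (hp : p.Prime) (h4 : p % 4 = 1) :
    (∃ x y : ℤ, (p : ℤ) = x ^ 2 + y ^ 2 ∧ x % 4 = 1) ∧
    ∀ x y : ℤ, (p : ℤ) = x ^ 2 + y ^ 2 → x % 4 = 1 →
      (p % 8 = 1 → (4 : ℤ) ∣ y ∧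
        CongrSq p (∑ k ∈ range p, binom (-1 / 4) k ^ 2 / (-8) ^ k)
          ((-1 : ℚ) ^ (y / 4) * (2 * (x : ℚ) - p / (2 * x)))) ∧
      (p % 8 = 5 → (4 : ℤ) ∣ y - 2 ∧
        CongrSq p (∑ k ∈ range p, binom (-1 / 4) k ^ 2 / (-8) ^ k)
          ((-1 : ℚ) ^ ((y - 2) / 4) * (2 * (y : ℚ) - p / (2 * y)))) := by
  haveI : Fact p.Prime := ⟨hp⟩
  obtain ⟨n, hn⟩ : ∃ n, p = 4 * n + 1 := ⟨p / 4, by omega⟩
  have hS : ∑ k ∈ range p, binom (-1 / 4) k ^ 2 / (-8) ^ k = Run7.h441.FQ.SR p := by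
    rw [Run7.h441.FQ.SR]
    refine sum_congr rfl fun k _ => ?_
    have e : (-1 / 8 : ℚ) ^ k = ((-8) ^ k)⁻¹ := by
      rw [← inv_pow]; norm_num
    rw [e, div_eq_mul_inv]
    rfl
  constructor
  · obtain ⟨a, b, h1, h2, -⟩ := Pool.Agent.R439.FD.jac p n hn
    exact ⟨-a, b, by rw [h1]; ring, by omega⟩
  · intro x y h1 h2
    rw [hS]
    constructor
    · intro h8
      have hn2 : n % 2 = 0 := by omega
      refine ⟨?_, congr_of_EQ (Run7.h441.FQ.case_one hn h1 h2 hn2)⟩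
      obtain ⟨a, ha⟩ : ∃ a, x = 4 * a + 1 := ⟨x / 4, by omega⟩
      rcases Int.even_or_odd y with ⟨c, hc⟩ | ⟨c, hc⟩
      · rcases Int.even_or_odd c with ⟨d, hd⟩ | ⟨d, hd⟩
        · exact ⟨d, by rw [hc, hd]; ring⟩
        · exfalso
          have h3 : x ^ 2 + y ^ 2 = 8 * (2 * a ^ 2 + a + 2 * d ^ 2 + 2 * d) + 5 := by
            rw [ha, hc, hd]; ring
          omega
      · exfalso
        have h3 : x ^ 2 + y ^ 2 = 2 * (8 * a ^ 2 + 4 * a + 2 * c ^ 2 + 2 * c + 1) := by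
          rw [ha, hc]; ring
        omega
    · intro h8
      have hn2 : n % 2 = 1 := by omega
      refine ⟨?_, congr_of_EQ (Run7.h441.FQ.case_two hn h1 h2 hn2)⟩
      have := (Run7.h441.FQ.quart_odd hn h1 h2 hn2).2
      omega

end Pool.Agent.Results.MP_fdcced_nt.QuestionTwo
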